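import Mathlib

set_option autoImplicit false

/-!
# The edge cover polynomial has at least `δ(G)` distinct roots

Proof idea: the polynomial `E(G,x)` agrees with `(1+x)^m` in its top `δ` coefficients, hence
`W = (1+x) E' - m E` has degree at most `m - δ`.  It is nonzero (because `0` is a root of `E` but
`E ≠ 0`), and every root of `E` of multiplicity `k` is a root of `W` of multiplicity at least
`k - 1`.  Counting roots gives `m - r ≤ m - δ`, where `r` is the number of distinct roots.
-/

namespace Pool.Agent.Results.MP_a87573_co.MinDegreeRoots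

open Polynomial

/-- `edgeCoverCount G i` is `e(G,i)`: the number of sets `S ⊆ E(G)` with exactly `i` edges such
that every vertex of `G` is an endpoint of at least one edge of `S`. -/
def edgeCoverCount {V : Type*} [Fintype V] [DecidableEq V] (G : SimpleGraph V)
    [DecidableRel G.Adj] (i : ℕ) : ℕ :=
  ((G.edgeFinset.powersetCard i).filter (fun S => ∀ v : V, ∃ e ∈ S, v ∈ e)).card

/-- The edge cover polynomial `E(G,x) = ∑_{i=0}^{m} e(G,i) x^i`, `m` the number of edges. -/
noncomputable def edgeCoverPoly {V : Type*} [Fintype V] [DecidableEq V] (G : SimpleGraph V)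
    [DecidableRel G.Adj] : ℂ[X] :=
  ∑ i ∈ Finset.range (G.edgeFinset.card + 1), C (edgeCoverCount G i : ℂ) * X ^ i

section aux

variable {V : Type*} [Fintype V] [DecidableEq V] (G : SimpleGraph V) [DecidableRel G.Adj]

lemma edgeCoverCount_eq_zero {i : ℕ} (hi : G.edgeFinset.card < i) : edgeCoverCount G i = 0 := by
  unfold edgeCoverCount
  rw [Finset.powersetCard_eq_empty.2 hi]
  simp

lemma coeff_edgeCoverPoly (i : ℕ) : (edgeCoverPoly G).coeff i = edgeCoverCount G i := by
  unfold edgeCoverPoly
  rw [finsetSum_coeff]
  simp only [coeff_C_mul, coeff_X_pow]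
  by_cases h : i < G.edgeFinset.card + 1
  · rw [Finset.sum_eq_single i]
    · simp
    · intro b _ hb
      simp [Ne.symm hb]
    · intro h'
      exact absurd (Finset.mem_range.2 h) h'
  · rw [edgeCoverCount_eq_zero G (by omega)]
    rw [Finset.sum_eq_zero]
    · simp
    · intro b hb
      have : b < G.edgeFinset.card + 1 := Finset.mem_range.1 hb
      have hne : i ≠ b := by omega
      simp [hne]

lemma edgeCoverCount_eq_choose {i : ℕ} (hi : G.edgeFinset.card < i + G.minDegree) :
    edgeCoverCount G i = G.edgeFinset.card.choose i := by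
  unfold edgeCoverCount
  rw [Finset.filter_true_of_mem, Finset.card_powersetCard]
  intro S hS v
  rw [Finset.mem_powersetCard] at hS
  by_contra hcon
  push Not at hcon
  have hsub : G.incidenceFinset v ⊆ G.edgeFinset \ S := by
    intro e he
    rw [SimpleGraph.mem_incidenceFinset] at he
    rw [Finset.mem_sdiff]
    refine ⟨?_, ?_⟩
    · rw [SimpleGraph.mem_edgeFinset]
      exact he.1
    · intro heS
      exact hcon e heS he.2
  have h1 := Finset.card_le_card hsub
  rw [SimpleGraph.card_incidenceFinset_eq_degree, Finset.card_sdiff_of_subset hS.1, hS.2] at h1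
  have h2 := G.minDegree_le_degree v
  have h3 := Finset.card_le_card hS.1
  omega

end aux

/-- counting roots with multiplicity -/
lemma count_aux (P : ℂ[X]) (m d : ℕ) (hd : 0 < d) (hdm : d ≤ m) (hP : P.natDegree = m)
    (hP0 : P.coeff 0 = 0) (hPne : P ≠ 0)
    (hcoeff : ∀ i, m < i + d → P.coeff i = (m.choose i : ℂ)) :
    d ≤ P.roots.toFinset.card := by
  -- R = (1+X)^m - P
  set R : ℂ[X] := (1 + X) ^ m - P with hR
  have hRdeg : R.natDegree ≤ m - d := by
    rw [natDegree_le_iff_coeff_eq_zero]
    intro N hN
    rw [hR, coeff_sub, coeff_one_add_X_pow, hcoeff N (by omega), sub_self]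
  set W : ℂ[X] := (1 + X) * derivative P - (m : ℂ[X]) * P with hW
  have hWR : W = (m : ℂ[X]) * R - (1 + X) * derivative R := by
    have h1 : (1 + X : ℂ[X]) * derivative ((1 + X : ℂ[X]) ^ m) = (m : ℂ[X]) * (1 + X) ^ m := by
      rw [derivative_pow]
      rcases Nat.exists_eq_succ_of_ne_zero (show m ≠ 0 by omega) with ⟨k, rfl⟩
      simp only [derivative_add, derivative_one, derivative_X, zero_add, mul_one,
        Nat.succ_eq_add_one, Nat.add_sub_cancel]
      push_cast
      simp only [C_add, C_eq_natCast, C_1]
      ring
    rw [hW, hR, derivative_sub, mul_sub, mul_sub, h1]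
    ring
  have hWdeg : W.natDegree ≤ m - d := by
    rw [hWR]
    refine (natDegree_sub_le _ _).trans (max_le ?_ ?_)
    · refine natDegree_mul_le.trans ?_
      rw [natDegree_natCast, zero_add]
      exact hRdeg
    · by_cases h0 : R.natDegree = 0
      · have : derivative R = 0 := by
          rw [natDegree_eq_zero.1 h0 |>.choose_spec.symm]
          simp
        rw [this]
        simp
      · have h1 : (derivative R).natDegree < R.natDegree := natDegree_derivative_lt h0
        have h2 : ((1 : ℂ[X]) + X).natDegree ≤ 1 := by
          refine (natDegree_add_le _ _).trans ?_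
          simp
        have h3 := natDegree_mul_le (p := (1 + X : ℂ[X])) (q := derivative R)
        omega
  have hWne : W ≠ 0 := by
    intro hW0
    apply hPne
    have hrec : ∀ k, P.coeff (k + 1) * (k + 1) = ((m : ℂ) - k) * P.coeff k := by
      intro k
      have h1 : W.coeff k = 0 := by rw [hW0]; simp
      rw [hW, coeff_sub, add_mul, one_mul, coeff_add, coeff_derivative] at h1
      rw [coeff_natCast_mul] at h1
      have h2 : (X * derivative P).coeff k = k * P.coeff k := by
        rcases k with _ | k
        · simp
        · rw [coeff_X_mul, coeff_derivative]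
          push_cast
          ring
      rw [h2] at h1
      linear_combination h1
    ext k
    rw [coeff_zero]
    induction k with
    | zero => exact hP0
    | succ k ih =>
      have h3 := hrec k
      rw [ih, mul_zero] at h3
      rcases mul_eq_zero.1 h3 with h4 | h4
      · exact h4
      · exfalso
        exact Nat.cast_add_one_ne_zero k h4
  -- multiplicities
  have hmult : ∀ z ∈ P.roots.toFinset, P.roots.count z ≤ W.roots.count z + 1 := by
    intro z _
    rw [count_roots, count_roots]
    have h1 : (X - C z) ^ (P.rootMultiplicity z - 1) ∣ W := by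
      rw [hW]
      refine dvd_sub ?_ ?_
      · refine Dvd.dvd.mul_left ?_ _
        exact pow_sub_one_dvd_derivative_of_pow_dvd (pow_rootMultiplicity_dvd P z)
      · refine Dvd.dvd.mul_left ?_ _
        exact (pow_dvd_pow _ (Nat.sub_le _ _)).trans (pow_rootMultiplicity_dvd P z)
    have h2 := (le_rootMultiplicity_iff hWne).2 h1
    omega
  have hsum1 : P.roots.card = ∑ z ∈ P.roots.toFinset, P.roots.count z :=
    (Multiset.toFinset_sum_count_eq P.roots).symm
  have hsum2 : ∑ z ∈ P.roots.toFinset, W.roots.count z ≤ W.roots.card := by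
    calc ∑ z ∈ P.roots.toFinset, W.roots.count z
        ≤ ∑ z ∈ P.roots.toFinset ∪ W.roots.toFinset, W.roots.count z :=
          Finset.sum_le_sum_of_subset Finset.subset_union_left
      _ = W.roots.card := by
          refine Multiset.sum_count_eq_card ?_
          intro a ha
          exact Finset.mem_union_right _ (Multiset.mem_toFinset.2 ha)
  have hsum3 : ∑ z ∈ P.roots.toFinset, P.roots.count z
      ≤ ∑ z ∈ P.roots.toFinset, (W.roots.count z + 1) := Finset.sum_le_sum hmult
  rw [Finset.sum_add_distrib, Finset.sum_const, smul_eq_mul, mul_one] at hsum3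
  have hcardP : P.roots.card = m := by
    rw [← hP]
    exact (IsAlgClosed.splits P).natDegree_eq_card_roots.symm
  have hcardW : W.roots.card ≤ m - d := (card_roots' W).trans hWdeg
  omega

/-- **Q1.** For every finite simple graph `G`, the edge cover polynomial `E(G,x)` has at least
`δ(G)` distinct complex roots.  (If `G` has an isolated vertex then `E(G,x)` is the zero polynomial
and the set of its roots is all of `ℂ`; the cardinality is taken in `ℕ∞`.) -/
theorem result {V : Type*} [Fintype V] [DecidableEq V] (G : SimpleGraph V) [DecidableRel G.Adj] :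
    (G.minDegree : ℕ∞) ≤ {z : ℂ | (edgeCoverPoly G).eval z = 0}.encard := by
  rcases Nat.eq_zero_or_pos G.minDegree with h0 | hpos
  · rw [h0]
    simp
  -- there is a vertex
  have hne : Nonempty V := by
    by_contra hcon
    rw [not_nonempty_iff] at hcon
    have := SimpleGraph.minDegree_of_subsingleton (G := G)
    omega
  obtain ⟨v⟩ := hne
  set m := G.edgeFinset.card with hm
  have hdm : G.minDegree ≤ m := by
    refine (G.minDegree_le_degree v).trans ?_
    rw [← SimpleGraph.card_incidenceFinset_eq_degree, hm]
    exact Finset.card_le_card (SimpleGraph.incidenceFinset_subset G v)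
  have hcoeff : ∀ i, m < i + G.minDegree → (edgeCoverPoly G).coeff i = (m.choose i : ℂ) := by
    intro i hi
    rw [coeff_edgeCoverPoly, edgeCoverCount_eq_choose G hi]
  have hcm : (edgeCoverPoly G).coeff m = 1 := by
    rw [hcoeff m (by omega)]
    simp
  have hPne : edgeCoverPoly G ≠ 0 := by
    intro h
    rw [h] at hcm
    simp at hcm
  have hdeg : (edgeCoverPoly G).natDegree = m := by
    refine natDegree_eq_of_le_of_coeff_ne_zero ?_ ?_
    · rw [natDegree_le_iff_coeff_eq_zero]
      intro N hN
      rw [coeff_edgeCoverPoly, edgeCoverCount_eq_zero G hN]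
      simp
    · rw [hcm]
      exact one_ne_zero
  have hc0 : (edgeCoverPoly G).coeff 0 = 0 := by
    rw [coeff_edgeCoverPoly]
    norm_cast
    unfold edgeCoverCount
    rw [Finset.card_eq_zero, Finset.filter_eq_empty_iff]
    intro S hS hcov
    rw [Finset.mem_powersetCard, Finset.card_eq_zero] at hS
    obtain ⟨e, he, _⟩ := hcov v
    rw [hS.2] at he
    simp at he
  have key := count_aux (edgeCoverPoly G) m G.minDegree hpos hdm hdeg hc0 hPne hcoeff
  have hset : {z : ℂ | (edgeCoverPoly G).eval z = 0}
      = ((edgeCoverPoly G).roots.toFinset : Set ℂ) := by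
    ext z
    simp [hPne, IsRoot.def]
  rw [hset, Set.encard_coe_eq_coe_finsetCard]
  exact_mod_cast key

end Pool.Agent.Results.MP_a87573_co.MinDegreeRoots
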